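import Mathlib
import Pool.Agent.H967G.Turan

set_option autoImplicit false

namespace Pool.Agent.Results.MP_11d263_co.TowerLowerBound

/-- `ex(n, C_m)`: the largest number of edges of a graph on `n` vertices without a cycle of
length `m`. -/
noncomputable def exC (n m : ℕ) : ℕ :=
  sSup {e | ∃ G : SimpleGraph (Fin n),
    (∀ (v : Fin n) (w : G.Walk v v), w.IsCycle → w.length ≠ m) ∧ G.edgeSet.ncard = e}

theorem bdd (n m : ℕ) : BddAbove {e | ∃ G : SimpleGraph (Fin n),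
    (∀ (v : Fin n) (w : G.Walk v v), w.IsCycle → w.length ≠ m) ∧ G.edgeSet.ncard = e} := by
  refine ⟨Nat.card (Sym2 (Fin n)), ?_⟩
  rintro e ⟨G, -, rfl⟩
  rw [← Nat.card_coe_set_eq]
  exact Nat.card_le_card_of_injective (Subtype.val) Subtype.val_injective

/-- For every `k ≥ 1` there is `c > 0` with `ex(n, C_{2k}) ≥ c n ^ (1 + 1 / (3 i - ⌈i/3⌉))` for all
large `n`, where `i = ⌈k/2⌉`. -/
theorem result : ∀ k : ℕ, 1 ≤ k →
    ∃ c : ℝ, 0 < c ∧ ∃ N : ℕ, ∀ n : ℕ, N ≤ n →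
      c * (n : ℝ) ^ ((1 : ℝ) + 1 / ((3 * ((k + 1) / 2) - ((k + 1) / 2 + 2) / 3 : ℕ) : ℝ)) ≤
        (exC n (2 * k) : ℝ) := by
  intro k hk
  obtain ⟨c, hc, N, h⟩ := Girth967.dense_graphs k hk
  refine ⟨c, hc, N, fun n hn => ?_⟩
  obtain ⟨G, hG, hE⟩ := h n hn
  refine le_trans hE ?_
  have h1 : G.edgeSet.ncard ≤ exC n (2 * k) := by
    refine le_csSup (bdd n (2 * k)) ⟨G, fun v w hw hl => ?_, rfl⟩
    have h2 := SimpleGraph.egirth_le_length hw
    rw [hl] at h2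
    exact absurd (lt_of_lt_of_le hG h2) (lt_irrefl _)
  exact_mod_cast h1

end Pool.Agent.Results.MP_11d263_co.TowerLowerBound
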